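import Mathlib

set_option autoImplicit false

/-!
# Solutions of `x ^ 4 + y ^ 4 + 64 = z ^ 4`: the prime factors of the differences

Every prime factor of `z ± x`, `z ± y` is `2` or `1 mod 4`, the power of two in each of them is
`1`, `2`, `4` or `16`, and every prime factor of `z ^ 4 - 64` is `1 mod 8` or a common factor of
`x` and `y`.
-/

namespace Pool.Agent.Results.MP_020c25_nt.GapPrimes

/-- An odd prime dividing `t ^ 4 + 64` is `1 mod 4`. -/
lemma mod_four (p t : ℕ) (hp : p.Prime) (h2 : p ≠ 2) (h : p ∣ t ^ 4 + 64) : p % 4 = 1 := by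
  have := Fact.mk hp
  have h8 : (8 : ZMod p) ≠ 0 := by
    intro h0
    have h1 : ((8 : ℕ) : ZMod p) = 0 := by exact_mod_cast h0
    rw [ZMod.natCast_eq_zero_iff] at h1
    have h3 : p ∣ 2 ^ 3 := by norm_num; exact h1
    exact h2 ((Nat.prime_dvd_prime_iff_eq hp Nat.prime_two).1 (hp.dvd_of_dvd_pow h3))
  have h0 : ((t : ZMod p)) ^ 4 + 64 = 0 := by
    have := (ZMod.natCast_eq_zero_iff (t ^ 4 + 64) p).2 h
    push_cast at this
    exact this
  have h3 : ((t : ZMod p) ^ 2) ^ 2 = - (8 : ZMod p) ^ 2 := by linear_combination h0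
  have h4 := ZMod.mod_four_ne_three_of_sq_eq_neg_sq' h8 h3
  have h5 : p % 2 = 1 := hp.eq_two_or_odd.resolve_left h2
  omega

/-- A prime dividing `x ^ 4 + y ^ 4` is `2`, `1 mod 8`, or divides both `x` and `y`. -/
lemma mod_eight (p x y : ℕ) (hp : p.Prime) (h2 : p ≠ 2) (h : p ∣ x ^ 4 + y ^ 4) :
    p % 8 = 1 ∨ (p ∣ x ∧ p ∣ y) := by
  have := Fact.mk hp
  by_cases hy : p ∣ y
  · right
    refine ⟨?_, hy⟩
    have h1 : p ∣ y ^ 4 := dvd_pow hy (by norm_num)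
    exact hp.dvd_of_dvd_pow ((Nat.dvd_add_left h1).1 h)
  · left
    have hy0 : (y : ZMod p) ≠ 0 := by
      intro h0
      exact hy ((ZMod.natCast_eq_zero_iff y p).1 h0)
    have h0 : (x : ZMod p) ^ 4 + (y : ZMod p) ^ 4 = 0 := by
      have := (ZMod.natCast_eq_zero_iff (x ^ 4 + y ^ 4) p).2 h
      push_cast at this
      exact this
    have hu : ((x : ZMod p) / y) ^ 4 = -1 := by
      rw [div_pow, div_eq_iff (pow_ne_zero 4 hy0)]
      linear_combination h0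
    have h3 : Fact (2 < p) := ⟨lt_of_le_of_ne hp.two_le (Ne.symm h2)⟩
    have hne : ((x : ZMod p) / y) ^ (2 ^ 2) ≠ 1 := by
      rw [show (2 : ℕ) ^ 2 = 4 by norm_num, hu]
      exact ZMod.neg_one_ne_one
    have he : ((x : ZMod p) / y) ^ (2 ^ (2 + 1)) = 1 := by
      rw [show (2 : ℕ) ^ (2 + 1) = 4 * 2 by norm_num, pow_mul, hu]
      norm_num
    have ho : orderOf ((x : ZMod p) / y) = 2 ^ (2 + 1) := orderOf_eq_prime_pow hne he
    have hx0 : ((x : ZMod p) / y) ≠ 0 := by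
      intro h00
      rw [h00] at hu
      norm_num at hu
    have hd : orderOf ((x : ZMod p) / y) ∣ p - 1 := ZMod.orderOf_dvd_card_sub_one hx0
    rw [ho] at hd
    norm_num at hd
    have := hp.two_le
    omega

lemma pow_two_eq_aux (e c q w : ℕ) (h : 2 ^ e * q = 2 ^ (e + (c + 1)) * w) (hq : q % 2 = 1) :
    False := by
  rw [pow_add, mul_assoc] at h
  have h3 := Nat.eq_of_mul_eq_mul_left (pow_pos (by norm_num : 0 < 2) e) h
  rw [pow_succ] at h3
  have h4 : q = 2 * (2 ^ c * w) := by rw [h3]; ring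
  omega

lemma pow_two_eq (e f q w : ℕ) (h : 2 ^ e * q = 2 ^ f * w) (hq : q % 2 = 1) (hw : w % 2 = 1) :
    e = f := by
  rcases lt_trichotomy e f with hlt | heq | hgt
  · obtain ⟨c, rfl⟩ : ∃ c, f = e + (c + 1) := ⟨f - e - 1, by omega⟩
    exact (pow_two_eq_aux e c q w h hq).elim
  · exact heq
  · obtain ⟨c, rfl⟩ : ∃ c, e = f + (c + 1) := ⟨e - f - 1, by omega⟩
    exact (pow_two_eq_aux f c w q h.symm hw).elim

/-- The differences for the odd variable `y`. -/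
lemma two_part (t y z a b m n : ℕ) (hz : z % 2 = 1) (hy : y % 2 = 1) (hyz : y < z)
    (h : (2 * t) ^ 4 + y ^ 4 + 64 = z ^ 4) (hm : m % 2 = 1) (hn : n % 2 = 1)
    (ha : z - y = 2 ^ a * m) (hb : z + y = 2 ^ b * n) :
    (a = 1 ∧ (b = 2 ∨ b = 4)) ∨ (b = 1 ∧ (a = 2 ∨ a = 4)) := by
  obtain ⟨k, rfl⟩ : ∃ k, z = 2 * k + 1 := ⟨z / 2, by omega⟩
  obtain ⟨l, rfl⟩ : ∃ l, y = 2 * l + 1 := ⟨y / 2, by omega⟩
  have hlk : l < k := by omega
  obtain ⟨d, rfl⟩ : ∃ d, k = l + d := ⟨k - l, by omega⟩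
  have e1 : 2 * (l + d) + 1 - (2 * l + 1) = 2 * d := by omega
  rw [e1] at ha
  have ha0 : a ≠ 0 := by
    rintro rfl
    omega
  have hb0 : b ≠ 0 := by
    rintro rfl
    omega
  obtain ⟨a, rfl⟩ := Nat.exists_eq_succ_of_ne_zero ha0
  obtain ⟨b, rfl⟩ := Nat.exists_eq_succ_of_ne_zero hb0
  rw [Nat.succ_eq_add_one] at ha hb
  rw [Nat.succ_eq_add_one, Nat.succ_eq_add_one]
  have ha' : d = 2 ^ a * m := by
    have : 2 * d = 2 * (2 ^ a * m) := by rw [ha]; ring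
    omega
  have hb' : 2 * l + d + 1 = 2 ^ b * n := by
    have : 2 * (2 * l + d + 1) = 2 * (2 ^ b * n) := by
      have h1 : 2 * (l + d) + 1 + (2 * l + 1) = 2 * (2 * l + d + 1) := by ring
      rw [← h1, hb]; ring
    omega
  -- one of `a`, `b` is zero
  have hab : a = 0 ∨ b = 0 := by
    by_contra hcon
    push Not at hcon
    obtain ⟨a', rfl⟩ := Nat.exists_eq_succ_of_ne_zero hcon.1
    obtain ⟨b', rfl⟩ := Nat.exists_eq_succ_of_ne_zero hcon.2
    have h1 : d = 2 * (2 ^ a' * m) := by rw [ha', Nat.succ_eq_add_one]; ring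
    have h2 : 2 * l + d + 1 = 2 * (2 ^ b' * n) := by rw [hb', Nat.succ_eq_add_one]; ring
    omega
  -- the sum of two odd squares is twice an odd number
  obtain ⟨s, hs⟩ : ∃ s, (2 * (l + d) + 1) ^ 2 + (2 * l + 1) ^ 2 = 2 * (2 * s + 1) :=
    ⟨(l + d) ^ 2 + (l + d) + l ^ 2 + l, by ring⟩
  have hprod : 4 * (d * (2 * l + d + 1)) * (2 * (2 * s + 1)) = 16 * t ^ 4 + 64 := by
    rw [← hs]
    have h1 : (2 * t) ^ 4 + 64 + (2 * l + 1) ^ 4 = (2 * (l + d) + 1) ^ 4 := by rw [← h]; ring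
    have h2 : (2 * (l + d) + 1) ^ 4
        = 4 * (d * (2 * l + d + 1)) * ((2 * (l + d) + 1) ^ 2 + (2 * l + 1) ^ 2)
          + (2 * l + 1) ^ 4 := by ring
    have h3 : (2 * t) ^ 4 = 16 * t ^ 4 := by ring
    omega
  have hprod2 : 2 ^ (a + b) * (m * n * (2 * s + 1)) = 2 * (t ^ 4 + 4) := by
    have h1 : 8 * (2 ^ (a + b) * (m * n * (2 * s + 1)))
        = 4 * (d * (2 * l + d + 1)) * (2 * (2 * s + 1)) := by
      rw [hb']
      nth_rewrite 1 [ha']
      rw [pow_add]; ring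
    omega
  have hodd : m * n * (2 * s + 1) % 2 = 1 := by
    have h1 : m * n % 2 = 1 := by rw [Nat.mul_mod, hm, hn]
    rw [Nat.mul_mod, h1]
    omega
  set q := m * n * (2 * s + 1) with hq
  -- compare the powers of two
  have hcases : a + b = 1 ∨ a + b = 3 := by
    rcases Nat.even_or_odd t with ⟨u, hu⟩ | ⟨u, hu⟩
    · right
      have h1 : 2 * (t ^ 4 + 4) = 2 ^ 3 * (4 * u ^ 4 + 1) := by
        rw [hu]; ring
      exact pow_two_eq _ _ _ _ (hprod2.trans h1) hodd (by omega)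
    · left
      have h0 : (t ^ 4 + 4) % 2 = 1 := by
        have : Odd (t ^ 4 + 4) := by
          have ht : Odd t := ⟨u, hu⟩
          exact (ht.pow).add_even (by decide)
        exact Nat.odd_iff.1 this
      exact pow_two_eq (a + b) 1 _ _ (by rw [hprod2, pow_one]) hodd h0
  omega

/-- The shape of `z ± x` and `z ± y` (only used inside this file). -/
def Admissible (k : ℕ) : Prop :=
  ∃ a m : ℕ, k = 2 ^ a * m ∧ (a = 0 ∨ a = 1 ∨ a = 2 ∨ a = 4) ∧
    ∀ p : ℕ, p.Prime → p ∣ m → p % 4 = 1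

lemma prime_part (w t z k : ℕ) (h : t ^ 4 + 64 + w ^ 4 = z ^ 4) (hk : k = z - w ∨ k = z + w)
    (p : ℕ) (hp : p.Prime) (h2 : p ≠ 2) (hd : p ∣ k) : p % 4 = 1 := by
  have hlt : w < z := by
    have h1 : w ^ 4 < z ^ 4 := by omega
    exact lt_of_pow_lt_pow_left₀ 4 (Nat.zero_le z) h1
  apply mod_four p t hp h2
  obtain ⟨d, rfl⟩ : ∃ d, z = w + d := ⟨z - w, by omega⟩
  have h3 : t ^ 4 + 64 = d * ((2 * w + d) * ((w + d) ^ 2 + w ^ 2)) := by
    have h4 : (w + d) ^ 4 = d * ((2 * w + d) * ((w + d) ^ 2 + w ^ 2)) + w ^ 4 := by ring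
    omega
  rw [h3]
  rcases hk with rfl | rfl
  · rw [show w + d - w = d by omega] at hd
    exact Dvd.dvd.mul_right hd _
  · rw [show w + d + w = 2 * w + d by ring] at hd
    exact Dvd.dvd.mul_left (Dvd.dvd.mul_right hd _) _

/-- Parities of a solution. -/
lemma parity (x y z : ℕ) (h : x ^ 4 + y ^ 4 + 64 = z ^ 4) :
    z % 2 = 1 ∧ ((x % 2 = 1 ∧ y % 2 = 0) ∨ (x % 2 = 0 ∧ y % 2 = 1)) := by
  have key : ∀ n : ℕ, n ^ 4 % 16 = n % 2 := by
    intro n
    have h1 : n ^ 4 % 16 = (n % 16) ^ 4 % 16 := Nat.pow_mod n 4 16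
    have h2 : n % 16 < 16 := Nat.mod_lt _ (by norm_num)
    have h3 : n % 2 = n % 16 % 2 := by omega
    rw [h1, h3]
    generalize n % 16 = r at *
    interval_cases r <;> rfl
  have hx := key x
  have hy := key y
  have hz := key z
  by_cases hxe : x % 2 = 0
  · by_cases hye : y % 2 = 0
    · exfalso
      have hze : z % 2 = 0 := by omega
      obtain ⟨x, rfl⟩ : ∃ t, x = 2 * t := ⟨x / 2, by omega⟩
      obtain ⟨y, rfl⟩ : ∃ t, y = 2 * t := ⟨y / 2, by omega⟩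
      obtain ⟨z, rfl⟩ : ∃ t, z = 2 * t := ⟨z / 2, by omega⟩
      have h4 : x ^ 4 + y ^ 4 + 4 = z ^ 4 := by
        have e1 : (2 * x) ^ 4 = 16 * x ^ 4 := by ring
        have e2 : (2 * y) ^ 4 = 16 * y ^ 4 := by ring
        have e3 : (2 * z) ^ 4 = 16 * z ^ 4 := by ring
        omega
      have hx' := key x
      have hy' := key y
      have hz' := key z
      omega
    · refine ⟨by omega, Or.inr ⟨hxe, by omega⟩⟩
  · by_cases hye : y % 2 = 0
    · exact ⟨by omega, Or.inl ⟨by omega, hye⟩⟩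
    · exfalso
      omega

/-- Both `z - y` and `z + y` are admissible. -/
lemma admissible_of (x y z : ℕ) (h : x ^ 4 + y ^ 4 + 64 = z ^ 4) :
    Admissible (z - y) ∧ Admissible (z + y) := by
  obtain ⟨hz, hxy⟩ := parity x y z h
  have hlt : y < z := by
    have h1 : y ^ 4 < z ^ 4 := by omega
    exact lt_of_pow_lt_pow_left₀ 4 (Nat.zero_le z) h1
  have h' : x ^ 4 + 64 + y ^ 4 = z ^ 4 := by omega
  rcases hxy with ⟨hx, hy⟩ | ⟨hx, hy⟩
  · refine ⟨⟨0, z - y, by simp, Or.inl rfl, ?_⟩, ⟨0, z + y, by simp, Or.inl rfl, ?_⟩⟩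
    · intro p hp hd
      refine prime_part y x z _ h' (Or.inl rfl) p hp ?_ hd
      rintro rfl
      omega
    · intro p hp hd
      refine prime_part y x z _ h' (Or.inr rfl) p hp ?_ hd
      rintro rfl
      omega
  · obtain ⟨t, rfl⟩ : ∃ t, x = 2 * t := ⟨x / 2, by omega⟩
    obtain ⟨a, m, hm, ha⟩ := Nat.exists_eq_two_pow_mul_odd (n := z - y) (by omega)
    obtain ⟨b, n, hn, hb⟩ := Nat.exists_eq_two_pow_mul_odd (n := z + y) (by omega)
    have h5 := two_part t y z a b m n hz hy hlt h (Nat.odd_iff.1 hm) (Nat.odd_iff.1 hn) ha hb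
    refine ⟨⟨a, m, ha, by omega, ?_⟩, ⟨b, n, hb, by omega, ?_⟩⟩
    · intro p hp hd
      refine prime_part y (2 * t) z _ h' (Or.inl rfl) p hp ?_ ?_
      · rintro rfl
        have := Nat.odd_iff.1 hm
        omega
      · rw [ha]
        exact Dvd.dvd.mul_left hd _
    · intro p hp hd
      refine prime_part y (2 * t) z _ h' (Or.inr rfl) p hp ?_ ?_
      · rintro rfl
        have := Nat.odd_iff.1 hn
        omega
      · rw [hb]
        exact Dvd.dvd.mul_left hd _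

/-- The prime factors of `z ^ 4 - 64` that are not `1 mod 8`. -/
lemma fact_eq (x y z p : ℕ) (h : x ^ 4 + y ^ 4 + 64 = z ^ 4) (hp : p.Prime) (h8 : p % 8 ≠ 1) :
    (z ^ 4 - 64).factorization p = 4 * (Nat.gcd x y).factorization p := by
  obtain ⟨hz, hxy⟩ := parity x y z h
  have hg : 0 < Nat.gcd x y := by
    apply Nat.pos_of_ne_zero
    intro h0
    obtain ⟨h1, h2⟩ := Nat.gcd_eq_zero_iff.1 h0
    omega
  obtain ⟨x', y', hc, hx', hy'⟩ := Nat.exists_coprime x y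
  have h1 : z ^ 4 - 64 = (Nat.gcd x y) ^ 4 * (x' ^ 4 + y' ^ 4) := by
    have e : x ^ 4 + y ^ 4 = (Nat.gcd x y) ^ 4 * (x' ^ 4 + y' ^ 4) := by
      nth_rewrite 1 [hx']
      nth_rewrite 2 [hy']
      ring
    omega
  have hodd : (x' ^ 4 + y' ^ 4) % 2 = 1 := by
    have hz' : z ^ 4 % 2 = 1 := by rw [Nat.pow_mod, hz]
    have h2 : (Nat.gcd x y) ^ 4 * (x' ^ 4 + y' ^ 4) % 2 = 1 := by
      rw [← h1]
      omega
    rcases Nat.even_or_odd (x' ^ 4 + y' ^ 4) with he | ho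
    · exfalso
      have := (Nat.even_iff.1 (he.mul_left ((Nat.gcd x y) ^ 4)))
      omega
    · exact Nat.odd_iff.1 ho
  have hnd : ¬ p ∣ x' ^ 4 + y' ^ 4 := by
    intro hd
    have h2 : p ≠ 2 := by
      rintro rfl
      omega
    rcases mod_eight p x' y' hp h2 hd with h3 | ⟨h3, h4⟩
    · exact h8 h3
    · have h5 : p ∣ Nat.gcd x' y' := Nat.dvd_gcd h3 h4
      rw [hc] at h5
      exact hp.one_lt.ne' (Nat.dvd_one.1 h5)
  have hne : x' ^ 4 + y' ^ 4 ≠ 0 := by omega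
  rw [h1, Nat.factorization_mul (pow_pos hg 4).ne' hne, Nat.factorization_pow]
  simp [Nat.factorization_eq_zero_of_not_dvd hnd]

/-- A common prime factor of `x` and `y` is odd and not `5 mod 8`. -/
lemma common_prime (x y z p : ℕ) (h : x ^ 4 + y ^ 4 + 64 = z ^ 4) (hp : p.Prime) (hx : p ∣ x)
    (hy : p ∣ y) : p ≠ 2 ∧ p % 8 ≠ 5 := by
  obtain ⟨hz, hxy⟩ := parity x y z h
  have h2 : p ≠ 2 := by
    rintro rfl
    omega
  refine ⟨h2, fun h5 => ?_⟩
  have := Fact.mk hp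
  have hx0 : (x : ZMod p) = 0 := (ZMod.natCast_eq_zero_iff x p).2 hx
  have hy0 : (y : ZMod p) = 0 := (ZMod.natCast_eq_zero_iff y p).2 hy
  have h0 : (x : ZMod p) ^ 4 + (y : ZMod p) ^ 4 + 64 = (z : ZMod p) ^ 4 := by
    have h00 := congrArg (Nat.cast : ℕ → ZMod p) h
    push_cast at h00
    exact h00
  have h20 : (2 : ZMod p) ≠ 0 := by
    intro h0
    have h1 : ((2 : ℕ) : ZMod p) = 0 := by exact_mod_cast h0
    rw [ZMod.natCast_eq_zero_iff] at h1
    exact h2 ((Nat.prime_dvd_prime_iff_eq hp Nat.prime_two).1 h1)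
  have h1 : ((z : ZMod p) ^ 2 - 8) * ((z : ZMod p) ^ 2 + 8) = 0 := by
    have e : (z : ZMod p) ^ 4 = 64 := by
      rw [← h0, hx0, hy0]; ring
    linear_combination e
  rcases mul_eq_zero.1 h1 with h3 | h3
  · have h4 : IsSquare (2 : ZMod p) := by
      refine ⟨(z : ZMod p) / 2, ?_⟩
      field_simp
      linear_combination -h3
    have := (ZMod.exists_sq_eq_two_iff h2).1 h4
    omega
  · have h4 : IsSquare (-2 : ZMod p) := by
      refine ⟨(z : ZMod p) / 2, ?_⟩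
      field_simp
      linear_combination -h3
    have := (ZMod.exists_sq_eq_neg_two_iff h2).1 h4
    omega

theorem result (x y z : ℕ) (h : x ^ 4 + y ^ 4 + 64 = z ^ 4) :
    Odd z ∧ (Odd x ↔ Even y) ∧
    (∀ k : ℕ, k = z - x ∨ k = z + x ∨ k = z - y ∨ k = z + y →
      ∃ a m : ℕ, k = 2 ^ a * m ∧ (a = 0 ∨ a = 1 ∨ a = 2 ∨ a = 4) ∧
        ∀ p : ℕ, p.Prime → p ∣ m → p % 4 = 1) ∧
    (∀ p : ℕ, p.Prime → p % 8 ≠ 1 →
      (z ^ 4 - 64).factorization p = 4 * (Nat.gcd x y).factorization p) ∧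
    (∀ p : ℕ, p.Prime → p ∣ x → p ∣ y → p ≠ 2 ∧ p % 8 ≠ 5) := by
  have hs : y ^ 4 + x ^ 4 + 64 = z ^ 4 := by omega
  obtain ⟨hz, hxy⟩ := parity x y z h
  refine ⟨Nat.odd_iff.2 hz, ?_, ?_, fun p hp h8 => fact_eq x y z p h hp h8,
    fun p hp h1 h2 => common_prime x y z p h hp h1 h2⟩
  · rw [Nat.odd_iff, Nat.even_iff]
    omega
  · rintro k (rfl | rfl | rfl | rfl)
    · exact (admissible_of y x z hs).1
    · exact (admissible_of y x z hs).2
    · exact (admissible_of x y z h).1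
    · exact (admissible_of x y z h).2

end Pool.Agent.Results.MP_020c25_nt.GapPrimes
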